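import Mathlib
set_option maxHeartbeats 400000
open Set
namespace Pool.Agent.Results.MP_d3ad9a_lc.Nice

abbrev SigmaQ : Type 1 :=
  {t : Set (Ordinal.{0} × ℚ) // ∃ α < Ordinal.omega 1, ∃ g : Ordinal.{0} → ℚ,
    StrictMonoOn g (Iio α) ∧ BddAbove (g '' Iio α) ∧ t = (fun β => (β, g β)) '' Iio α}

def Special (X : Set SigmaQ) : Prop :=
  ∃ A : ℕ → Set SigmaQ, (∀ n, IsAntichain (· ≤ ·) (A n)) ∧ X = ⋃ n, A n

def Nonstationary (X : Set SigmaQ) : Prop :=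
  ∃ f : SigmaQ → SigmaQ, (∀ x ∈ X, (∃ y ∈ X, y < x) → f x < x) ∧ ∀ t, Special {x ∈ X | f x = t}

def SuccPartition (Q : SigmaQ → Bool → Set SigmaQ) : Prop :=
  ∀ t, Disjoint (Q t false) (Q t true) ∧ Q t false ∪ Q t true = {s | t ⋖ s}

def IsTreeOf (Q : SigmaQ → Bool → Set SigmaQ) (f : SigmaQ → Bool) (S : Set SigmaQ) : Prop :=
  IsLowerSet S ∧ (∀ t ∈ S, {s ∈ S | t ⋖ s} = Q t (f t)) ∧
    ∀ t, (¬ ∃ u, u ⋖ t) → (∀ s < t, s ∈ S) → t ∈ S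

noncomputable def len (t : SigmaQ) : Ordinal.{0} := t.2.choose
noncomputable def fn (t : SigmaQ) : Ordinal.{0} → ℚ := t.2.choose_spec.2.choose

lemma len_lt (t : SigmaQ) : len t < Ordinal.omega 1 := t.2.choose_spec.1
lemma fn_mono (t : SigmaQ) : StrictMonoOn (fn t) (Iio (len t)) := t.2.choose_spec.2.choose_spec.1
lemma fn_bdd (t : SigmaQ) : BddAbove (fn t '' Iio (len t)) := t.2.choose_spec.2.choose_spec.2.1

lemma mem_iff (t : SigmaQ) (β : Ordinal.{0}) (q : ℚ) : (β, q) ∈ t.1 ↔ β < len t ∧ q = fn t β := by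
  have h : t.1 = (fun β => (β, fn t β)) '' Iio (len t) := t.2.choose_spec.2.choose_spec.2.2
  rw [h]
  constructor
  · rintro ⟨x, hx, h2⟩
    obtain ⟨rfl, rfl⟩ := Prod.ext_iff.mp h2
    exact ⟨hx, rfl⟩
  · rintro ⟨h1, rfl⟩
    exact ⟨β, h1, rfl⟩

lemma le_iff (s t : SigmaQ) : s ≤ t ↔ len s ≤ len t ∧ ∀ β < len s, fn s β = fn t β := by
  constructor
  · intro h
    have key : ∀ β < len s, β < len t ∧ fn s β = fn t β := fun β hβ =>
      (mem_iff t β _).mp (h ((mem_iff s β _).mpr ⟨hβ, rfl⟩))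
    exact ⟨le_of_forall_lt fun β hβ => (key β hβ).1, fun β hβ => (key β hβ).2⟩
  · rintro ⟨h1, h2⟩ ⟨β, q⟩ h
    obtain ⟨h3, h4⟩ := (mem_iff s β q).mp h
    exact (mem_iff t β q).mpr ⟨lt_of_lt_of_le h3 h1, h4.trans (h2 β h3)⟩

lemma exists_mk (α : Ordinal.{0}) (hα : α < Ordinal.omega 1) (g : Ordinal.{0} → ℚ)
    (h1 : StrictMonoOn g (Iio α)) (h2 : BddAbove (g '' Iio α)) :
    ∃ t : SigmaQ, len t = α ∧ ∀ β < α, fn t β = g β := by
  let t : SigmaQ := ⟨(fun β => (β, g β)) '' Iio α, α, hα, g, h1, h2, rfl⟩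
  have a1 : ∀ β < α, β < len t ∧ g β = fn t β := fun β hβ => (mem_iff t β _).mp ⟨β, hβ, rfl⟩
  refine ⟨t, le_antisymm (le_of_forall_lt fun β hβ => ?_) (le_of_forall_lt fun β hβ => (a1 β hβ).1),
    fun β hβ => (a1 β hβ).2.symm⟩
  obtain ⟨x, hx, h3⟩ := (mem_iff t β _).mpr ⟨hβ, rfl⟩
  obtain ⟨rfl, -⟩ := Prod.ext_iff.mp h3
  exact hx

lemma le_of_le_len {s u t : SigmaQ} (h1 : s ≤ t) (h2 : u ≤ t) (h : len s ≤ len u) : s ≤ u := by
  rw [le_iff] at h1 h2 ⊢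
  exact ⟨h, fun β hβ => (h1.2 β hβ).trans (h2.2 β (lt_of_lt_of_le hβ h)).symm⟩

lemma lt_iff (s t : SigmaQ) : s < t ↔ s ≤ t ∧ len s < len t := by
  constructor
  · intro h
    refine ⟨h.le, lt_of_not_ge fun h2 => h.not_ge (le_of_le_len le_rfl h.le h2)⟩
  · rintro ⟨h1, h2⟩
    exact lt_of_le_not_ge h1 fun h3 => absurd ((le_iff _ _).mp h3).1 (not_le.mpr h2)

lemma restr (t : SigmaQ) (β : Ordinal.{0}) (h : β ≤ len t) : ∃ s ≤ t, len s = β := by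
  obtain ⟨s, h1, h2⟩ := exists_mk β (lt_of_le_of_lt h (len_lt t)) (fn t)
    ((fn_mono t).mono (Iio_subset_Iio h)) ((fn_bdd t).mono (image_mono (Iio_subset_Iio h)))
  exact ⟨s, (le_iff _ _).mpr ⟨h1 ▸ h, fun γ hγ => h2 γ (h1 ▸ hγ)⟩, h1⟩

lemma covBy_of {s t : SigmaQ} (h : s ≤ t) (h2 : len t = Order.succ (len s)) : s ⋖ t := by
  refine ⟨(lt_iff _ _).mpr ⟨h, h2 ▸ Order.lt_succ _⟩, fun c h3 h4 => ?_⟩
  have a1 := ((lt_iff _ _).mp h3).2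
  have a2 := ((lt_iff _ _).mp h4).2
  rw [h2, Order.lt_succ_iff] at a2
  exact absurd a1 (not_lt.mpr a2)

lemma step_toward {s t : SigmaQ} (h : s < t) : ∃ u, s ⋖ u ∧ u ≤ t := by
  obtain ⟨h1, h2⟩ := (lt_iff _ _).mp h
  obtain ⟨u, h3, h4⟩ := restr t _ (Order.succ_le_of_lt h2)
  exact ⟨u, covBy_of (le_of_le_len h1 h3 (h4 ▸ Order.le_succ _)) h4, h3⟩

lemma cov_unique {s u v t : SigmaQ} (h1 : s ⋖ u) (h2 : s ⋖ v) (h3 : u ≤ t) (h4 : v ≤ t) : u = v := by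
  rcases le_total (len u) (len v) with h | h
  · exact ((h2.eq_or_eq h1.le (le_of_le_len h3 h4 h)).resolve_left h1.ne')
  · exact ((h1.eq_or_eq h2.le (le_of_le_len h4 h3 h)).resolve_left h2.ne').symm

lemma cov_unique' {u v s : SigmaQ} (h1 : u ⋖ s) (h2 : v ⋖ s) : u = v := by
  rcases le_total (len u) (len v) with h | h
  · exact ((h1.eq_or_eq (le_of_le_len h1.le h2.le h) h2.le).resolve_right h2.ne).symm
  · exact (h2.eq_or_eq (le_of_le_len h2.le h1.le h) h1.le).resolve_right h1.ne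

lemma extend (t : SigmaQ) (a x : ℚ) (h : ∀ β < len t, fn t β ≤ a) (hx : a < x) :
    ∃ s, t ⋖ s ∧ fn s (len t) = x ∧ ∀ β < len s, fn s β ≤ x := by
  classical
  have hb : ∀ β < Order.succ (len t), (if β < len t then fn t β else x) ≤ x := by
    intro β _
    split_ifs with h1
    · exact (h β h1).trans hx.le
    · exact le_rfl
  obtain ⟨s, h1, h2⟩ := exists_mk (Order.succ (len t))
    ((Cardinal.isSuccLimit_omega 1).succ_lt (len_lt t)) (fun β => if β < len t then fn t β else x)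
    (by
      intro β hβ γ hγ hlt
      have h3 : β < len t := lt_of_lt_of_le hlt (Order.lt_succ_iff.mp hγ)
      simp only [h3, if_true]
      split_ifs with h4
      · exact fn_mono t h3 h4 hlt
      · exact lt_of_le_of_lt (h β h3) hx)
    ⟨x, by rintro _ ⟨β, hβ, rfl⟩; exact hb β hβ⟩
  refine ⟨s, covBy_of ((le_iff _ _).mpr ⟨h1 ▸ Order.le_succ _, fun β hβ => ?_⟩) h1, ?_, ?_⟩
  · rw [h2 β (hβ.trans (Order.lt_succ _)), if_pos hβ]
  · rw [h2 _ (Order.lt_succ _), if_neg (lt_irrefl _)]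
  · intro β hβ
    rw [h1] at hβ
    rw [h2 β hβ]
    exact hb β hβ

lemma limit (t : ℕ → SigmaQ) (ht : Monotone t) (c : ℚ) (hc : ∀ k, ∀ β < len (t k), fn (t k) β ≤ c) :
    ∃ w, (∀ k, t k ≤ w) ∧ ∀ β < len w, ∃ k, β < len (t k) := by
  classical
  have hk : ∀ β, ∃ k, β < ⨆ k, len (t k) → β < len (t k) := by
    intro β
    by_cases h : β < ⨆ k, len (t k)
    · obtain ⟨k, hk⟩ := Ordinal.lt_iSup_iff.mp h
      exact ⟨k, fun _ => hk⟩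
    · exact ⟨0, fun h' => absurd h' h⟩
  choose κ hκ using hk
  have agree : ∀ j k β, β < len (t j) → β < len (t k) → fn (t j) β = fn (t k) β := by
    intro j k β h1 h2
    rcases le_total j k with h | h
    · exact ((le_iff _ _).mp (ht h)).2 β h1
    · exact (((le_iff _ _).mp (ht h)).2 β h2).symm
  obtain ⟨w, h1, h2⟩ := exists_mk (⨆ k, len (t k)) (Ordinal.iSup_lt_omega_one fun k => len_lt (t k))
    (fun β => fn (t (κ β)) β)
    (by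
      intro β hβ γ hγ hlt
      have a1 := hκ γ hγ
      simp only
      rw [agree (κ β) (κ γ) β (hκ β hβ) (hlt.trans a1)]
      exact fn_mono _ (hlt.trans a1) a1 hlt)
    ⟨c, by rintro _ ⟨β, hβ, rfl⟩; exact hc _ β (hκ β hβ)⟩
  refine ⟨w, fun k => (le_iff _ _).mpr ⟨h1 ▸ Ordinal.le_iSup (fun k => len (t k)) k, fun β hβ => ?_⟩,
    fun β hβ => ⟨κ β, hκ β (h1 ▸ hβ)⟩⟩
  have a1 : β < ⨆ k, len (t k) := lt_of_lt_of_le hβ (Ordinal.le_iSup (fun k => len (t k)) k)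
  rw [h2 β a1]
  exact agree _ _ β hβ (hκ β a1)

def Dy (x : ℚ) : Prop := ∃ (n : ℕ) (m : ℤ), x = m / 2 ^ n

lemma dy_dense (a b : ℚ) (h : a < b) : ∃ x, a < x ∧ x < b ∧ Dy x := by
  obtain ⟨n, hn⟩ := pow_unbounded_of_one_lt (1 / (b - a)) (show (1:ℚ) < 2 by norm_num)
  have hp : (0:ℚ) < 2 ^ n := by positivity
  rw [div_lt_iff₀ (by linarith)] at hn
  refine ⟨(⌊a * 2 ^ n⌋ + 1 : ℤ) / 2 ^ n, ?_, ?_, n, _, rfl⟩
  · rw [lt_div_iff₀ hp]; push_cast; exact Int.lt_floor_add_one _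
  · rw [div_lt_iff₀ hp]; push_cast
    have := Int.floor_le (a * 2 ^ n)
    nlinarith

lemma dense_both (i : Bool) (a b : ℚ) (h : a < b) : ∃ x, a < x ∧ x < b ∧ (Dy x ↔ i = true) := by
  cases i
  · obtain ⟨x, h1, h2, n, m, rfl⟩ := dy_dense (a - 1/3) (b - 1/3) (by linarith)
    refine ⟨m / 2 ^ n + 1/3, by linarith, by linarith, ?_⟩
    simp only [Bool.false_eq_true, iff_false]
    rintro ⟨n', m', h3⟩
    have h4 : (2:ℤ) ^ (n + n') = 3 * (m' * 2 ^ n - m * 2 ^ n') := by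
      have : (2:ℚ) ^ (n + n') = 3 * (m' * 2 ^ n - m * 2 ^ n') := by
        field_simp at h3
        rw [pow_add]; linarith
      exact_mod_cast this
    have h5 : (3:ℤ) ∣ 2 := Int.prime_three.dvd_of_dvd_pow ⟨_, h4⟩
    norm_num at h5
  · obtain ⟨x, h1, h2, h3⟩ := dy_dense a b h
    exact ⟨x, h1, h2, by simpa using h3⟩

def QQ (t : SigmaQ) (i : Bool) : Set SigmaQ := {s | t ⋖ s ∧ (Dy (fn s (len t)) ↔ i = true)}

def Bd (t : SigmaQ) (q : ℚ) : Prop := ∃ a < q, ∀ β < len t, fn t β ≤ a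

lemma key (f : SigmaQ → Bool) (S : Set SigmaQ) (hS : IsTreeOf QQ f S)
    (A : SigmaQ → ℕ → Set SigmaQ) (hA : ∀ u n, IsAntichain (· ≤ ·) (A u n)) :
    ∃ w ∈ S, ¬ IsMin w ∧ ∀ u < w, ∀ n, w ∉ A u n := by
  classical
  obtain ⟨h1, h2, h3⟩ := hS
  have step : ∀ (p : {p : SigmaQ × ℚ // p.1 ∈ S ∧ Bd p.1 p.2}) (B : Set SigmaQ),
      ∃ p' : {p : SigmaQ × ℚ // p.1 ∈ S ∧ Bd p.1 p.2}, p.1.1 < p'.1.1 ∧ p'.1.2 < p.1.2 ∧
        ((∃ s ∈ S, s ∈ B ∧ p.1.1 ≤ s ∧ Bd s p.1.2) → ∃ s ∈ B, s < p'.1.1) := by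
    rintro ⟨⟨t, q⟩, ht, hq⟩ B
    obtain ⟨s, hs, hts, ⟨a, ha, hb⟩, hB⟩ : ∃ s ∈ S, t ≤ s ∧ Bd s q ∧
        ((∃ s ∈ S, s ∈ B ∧ t ≤ s ∧ Bd s q) → s ∈ B) := by
      by_cases h : ∃ s ∈ S, s ∈ B ∧ t ≤ s ∧ Bd s q
      · obtain ⟨s, a1, a2, a3, a4⟩ := h
        exact ⟨s, a1, a3, a4, fun _ => a2⟩
      · exact ⟨t, ht, le_rfl, hq, fun h' => absurd h' h⟩
    obtain ⟨x, hx1, hx2, hx3⟩ := dense_both (f s) a q ha
    obtain ⟨s', c1, c2, c3⟩ := extend s a x hb hx1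
    have c4 : s' ∈ QQ s (f s) := ⟨c1, c2 ▸ hx3⟩
    rw [← h2 s hs] at c4
    refine ⟨⟨(s', (x + q) / 2), c4.1, x, by simp only; linarith, c3⟩, lt_of_le_of_lt hts c1.lt,
      by simp only; linarith, fun h => ⟨s, hB h, c1.lt⟩⟩
  choose nx hx1 hx2 hx3 using step
  obtain ⟨r0, hr0, -⟩ := exists_mk 0 (Ordinal.omega_pos 1) (fun _ => 0) (fun β hβ => by simp at hβ)
    ⟨0, by rintro _ ⟨β, _, rfl⟩; exact le_rfl⟩
  have hr1 : ∀ s, ¬ s < r0 := fun s hs => by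
    have := ((lt_iff _ _).mp hs).2
    simp [hr0] at this
  have hr2 : r0 ∈ S ∧ Bd r0 1 := ⟨h3 r0 (fun ⟨u, hu⟩ => hr1 u hu.lt) fun s hs => absurd hs (hr1 s),
    0, by norm_num, fun β hβ => by simp [hr0] at hβ⟩
  obtain ⟨e0, he0⟩ := exists_surjective_nat (ℚ × ℕ)
  let e : ℕ → ℚ × ℕ := fun k => e0 k.unpair.2
  let B : SigmaQ → ℕ → Set SigmaQ := fun t k =>
    {s | ∃ u < t, fn t (len u) = (e k).1 ∧ s ∈ A u (e k).2}
  let p : ℕ → {p : SigmaQ × ℚ // p.1 ∈ S ∧ Bd p.1 p.2} := fun k =>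
    Nat.rec ⟨(r0, 1), hr2⟩ (fun k x => nx x (B x.1.1 k)) k
  have hp : ∀ k, p (k+1) = nx (p k) (B (p k).1.1 k) := fun k => rfl
  have m1 : StrictMono fun k => (p k).1.1 := strictMono_nat_of_lt_succ fun k => hx1 _ _
  have m2 : StrictAnti fun k => (p k).1.2 := strictAnti_nat_of_succ_lt fun k => hx2 _ _
  have m3 : ∀ j k, ∀ β < len (p k).1.1, fn (p k).1.1 β ≤ (p j).1.2 := by
    intro j k β hβ
    have a1 := (le_iff _ _).mp (m1.monotone (le_max_left k j))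
    obtain ⟨a, ha, hb⟩ := (p (max k j)).2.2
    have a2 := hb β (lt_of_lt_of_le hβ a1.1)
    have a3 := m2.antitone (le_max_right k j)
    rw [a1.2 β hβ]
    exact a2.trans (ha.le.trans a3)
  obtain ⟨w, hw1, hw2⟩ := limit _ m1.monotone _ (m3 0)
  have hw3 : ∀ k, (p k).1.1 < w := fun k => lt_of_lt_of_le (m1 (Nat.lt_succ_self k)) (hw1 (k+1))
  have hw4 : ∀ u < w, ∃ k, u < (p k).1.1 := by
    intro u hu
    obtain ⟨k, hk⟩ := hw2 _ ((lt_iff _ _).mp hu).2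
    exact ⟨k, (lt_iff _ _).mpr ⟨le_of_le_len hu.le (hw1 k) hk.le, hk⟩⟩
  have hw5 : w ∈ S := by
    refine h3 w ?_ fun s hs => ?_
    · rintro ⟨u, hu⟩
      obtain ⟨k, hk⟩ := hw4 u hu.lt
      exact hu.2 hk (hw3 k)
    · obtain ⟨k, hk⟩ := hw4 s hs
      exact h1 hk.le (p k).2.1
  refine ⟨w, hw5, fun h => (hw3 0).not_ge (h (hw3 0).le), fun u hu n hn => ?_⟩
  obtain ⟨j, hj⟩ := hw4 u hu
  obtain ⟨c, hc⟩ := he0 (fn w (len u), n)
  set k := Nat.pair j c with hk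
  have hek : e k = (fn w (len u), n) := by simp [e, hk, hc]
  have huk : u < (p k).1.1 := lt_of_lt_of_le hj (m1.monotone (Nat.left_le_pair _ _))
  have hfu : fn (p k).1.1 (len u) = (e k).1 := by
    rw [hek]; exact ((le_iff _ _).mp (hw1 k)).2 _ ((lt_iff _ _).mp huk).2
  have hbd : Bd w (p k).1.2 := by
    refine ⟨(p (k+1)).1.2, m2 (Nat.lt_succ_self k), fun β hβ => ?_⟩
    obtain ⟨i, hi⟩ := hw2 β hβ
    rw [← ((le_iff _ _).mp (hw1 i)).2 β hi]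
    exact m3 (k+1) i β hi
  obtain ⟨s, ⟨v, hv1, hv2, hv3⟩, hs⟩ := hx3 (p k) (B (p k).1.1 k)
    ⟨w, hw5, ⟨u, huk, hfu, by rw [hek]; exact hn⟩, hw1 k, hbd⟩
  have hl : len v = len u := (fn_mono (p k).1.1).injOn ((lt_iff _ _).mp hv1).2
    ((lt_iff _ _).mp huk).2 (hv2.trans hfu.symm)
  have hvu : v = u := le_antisymm (le_of_le_len hv1.le huk.le hl.le) (le_of_le_len huk.le hv1.le hl.ge)
  rw [hvu, hek] at hv3
  have hsw : s < w := lt_trans hs (hw3 (k+1))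
  exact hA u n hv3 hn hsw.ne hsw.le

lemma tree_exists (f : SigmaQ → Bool) :
    IsTreeOf QQ f {t | ∀ u s, u ⋖ s → s ≤ t → s ∈ QQ u (f u)} := by
  refine ⟨fun a b hab ha u s h1 h2 => ha u s h1 (h2.trans hab), fun t ht => ?_, fun t h1 h2 => ?_⟩
  · ext s
    refine ⟨fun hs => hs.1 t s hs.2 le_rfl, fun hs => ⟨fun u v h1 h2 => ?_, hs.1⟩⟩
    rcases h2.lt_or_eq with h3 | rfl
    · refine ht u v h1 (le_of_le_len h3.le hs.1.le ?_)
      by_contra h4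
      exact hs.1.2 ((lt_iff _ _).mpr ⟨le_of_le_len hs.1.le h3.le (not_le.mp h4).le, not_le.mp h4⟩) h3
    · rw [cov_unique' h1 hs.1]; exact hs
  · intro u s h3 h4
    rcases h4.lt_or_eq with h5 | rfl
    · exact h2 s h5 u s h3 le_rfl
    · exact absurd ⟨u, h3⟩ h1

theorem result :
    (∃ Q, SuccPartition Q ∧ ∀ f, (∃ S, IsTreeOf Q f S) ∧ ∀ S, IsTreeOf Q f S → ¬ Special S) ∧
    (∃ D : SigmaQ → Set SigmaQ, (∀ t, D t ⊆ Iio t) ∧
      ∀ X : Set SigmaQ, ¬ Nonstationary {t | X ∩ Iio t = D t}) := by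
  classical
  refine ⟨⟨QQ, fun t => ⟨?_, ?_⟩, fun f => ⟨⟨_, tree_exists f⟩, ?_⟩⟩,
    fun t => {s | s < t ∧ ∃ v ≤ t, v ∈ QQ s true}, fun t s hs => hs.1, ?_⟩
  · rw [Set.disjoint_left]
    intro s h1 h2
    have a1 := h1.2
    have a2 := h2.2
    simp at a1 a2
    exact a1 a2
  · ext s
    simp only [QQ, mem_union, mem_ofPred_eq]
    by_cases h : Dy (fn s (len t)) <;> simp [h]
  · rintro S hS ⟨A, hA, hSA⟩
    obtain ⟨w, h1, h2, h3⟩ := key f S hS (fun _ n => A n) fun _ n => hA n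
    obtain ⟨u, hu⟩ := not_isMin_iff.mp h2
    rw [hSA] at h1
    obtain ⟨n, hn⟩ := mem_iUnion.mp h1
    exact h3 u hu n hn
  · rintro X ⟨g, hg1, hg2⟩
    choose A hA1 hA2 using hg2
    obtain ⟨w, h1, h2, h3⟩ := key (fun t => decide (t ∈ X)) _ (tree_exists _) A hA1
    have h4 : ∀ w : SigmaQ, (∀ u s, u ⋖ s → s ≤ w → s ∈ QQ u (decide (u ∈ X))) →
        w ∈ {t | X ∩ Iio t = {s | s < t ∧ ∃ v ≤ t, v ∈ QQ s true}} := by
      intro w h1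
      ext s
      constructor
      · rintro ⟨a1, a2⟩
        obtain ⟨v, a3, a4⟩ := step_toward a2
        have := h1 s v a3 a4
        simp only [a1, decide_true] at this
        exact ⟨a2, v, a4, this⟩
      · rintro ⟨a1, v, a2, a3⟩
        have a4 := (h1 s v a3.1 a2).2
        have a5 := a3.2
        simp only [iff_true, decide_eq_true_eq] at a4 a5
        exact ⟨a4.mp a5, a1⟩
    have h5 : w ∈ ⋃ n, A (g w) n := by
      rw [← hA2]; exact ⟨h4 w h1, rfl⟩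
    obtain ⟨n, hn⟩ := mem_iUnion.mp h5
    obtain ⟨y, hy⟩ := not_isMin_iff.mp h2
    exact h3 _ (hg1 w (h4 w h1) ⟨y, h4 y fun u s a1 a2 => h1 u s a1 (a2.trans hy.le), hy⟩) n hn

end Pool.Agent.Results.MP_d3ad9a_lc.Nice
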